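import Pool.Agent.Run7.h6.SqfreePow

/-- There are infinitely many natural numbers `n ≥ 3` such that `n - 2 ^ k` is squarefree for
every `k ≥ 1` with `2 ^ k < n`. -/
theorem Pool.Agent.Results.MP_fcd74d_nt.InfinitelyManyGood.result :
    {n : ℕ | 3 ≤ n ∧ ∀ k : ℕ, 1 ≤ k → 2 ^ k < n → Squarefree (n - 2 ^ k)}.Infinite :=
  Run7.h6.SqfreePow.infinite_good
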